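import Pool.Agent.W394.BQN.Stm

/-!
# Project BQN, part DEC: decomposition of Laurent matrices (adaptation of `BQ.dec_mv`)
-/

set_option autoImplicit false

open Polynomial

noncomputable section

namespace Pool.Agent.W571.BQN

open BQ BQ.O Pool.Agent.W394.BQN

theorem s2_map {V K : Type} [CommRing V] [IsDomain V] [CommRing K] [IsDomain K] (q : V →+* K)
    (h : V[X]) (hh : h ∈ S2 V) : h.map q ∈ S2 K := by
  obtain ⟨a, f, hf, -, hfm, hf0⟩ := S2.factor V h hh
  have h1 : (f.map q).Monic := hfm.map q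
  have h2 : (f.map q).coeff 0 = 1 := by
    rw [coeff_map, coeff_zero_eq_eval_zero, hf0, map_one]
  have h3 : (f.map q) ∈ S2 K := by
    refine ⟨h1, ?_⟩
    show (f.map q).trailingCoeff = 1
    have h4 : (f.map q).natTrailingDegree = 0 := by
      rw [natTrailingDegree_eq_zero]
      right
      rw [h2]
      exact one_ne_zero
    rw [trailingCoeff, h4, h2]
  rw [hf, Polynomial.map_mul, Polynomial.map_pow, Polynomial.map_X]
  exact (S2 K).mul_mem ((S2 K).pow_mem (X_mem_S2 K) a) h3

theorem s2_lift {V K : Type} [CommRing V] [IsDomain V] [CommRing K] [IsDomain K] (q : V →+* K)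
    (hq : Function.Surjective q) (b : K[X]) (hb : b ∈ S2 K) : ∃ h ∈ S2 V, h.map q = b := by
  obtain ⟨k, b2, hb2, -, hm2, hb20⟩ := S2.factor K b hb
  have hc0 : b2.coeff 0 = 1 := by rw [coeff_zero_eq_eval_zero, hb20]
  obtain ⟨h2, h2m, h20, h2map⟩ : ∃ h2 : V[X], h2.Monic ∧ h2.coeff 0 = 1 ∧ h2.map q = b2 := by
    by_cases hdeg : b2.natDegree = 0
    · have h1 : b2 = 1 := hm2.natDegree_eq_zero.1 hdeg
      exact ⟨1, monic_one, by simp, by rw [h1, Polynomial.map_one]⟩
    · have hlift : b2 ∈ lifts q := by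
        rw [mem_lifts]
        exact Polynomial.map_surjective q hq b2
      obtain ⟨h1, hh1, hh1d, hh1m⟩ := lifts_and_natDegree_eq_and_monic hlift hm2
      refine ⟨h1 + Polynomial.C (1 - h1.coeff 0), ?_, ?_, ?_⟩
      · apply hh1m.add_of_left
        refine lt_of_le_of_lt degree_C_le ?_
        rw [← natDegree_pos_iff_degree_pos, hh1d]
        omega
      · rw [coeff_add, coeff_C_zero]
        ring
      · rw [Polynomial.map_add, hh1, Polynomial.map_C]
        have h3 : q (1 - h1.coeff 0) = 0 := by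
          rw [map_sub, map_one, ← coeff_map, hh1, hc0, sub_self]
        rw [h3, map_zero, add_zero]
  have h2S : h2 ∈ S2 V := by
    refine ⟨h2m, ?_⟩
    show h2.trailingCoeff = 1
    have h4 : h2.natTrailingDegree = 0 := by
      rw [natTrailingDegree_eq_zero]
      right
      rw [h20]
      exact one_ne_zero
    rw [trailingCoeff, h4, h20]
  refine ⟨X ^ k * h2, (S2 V).mul_mem ((S2 V).pow_mem (X_mem_S2 V) k) h2S, ?_⟩
  rw [Polynomial.map_mul, Polynomial.map_pow, Polynomial.map_X, h2map, ← hb2]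

theorem exists_qq' {V K : Type} [CommRing V] [IsDomain V] [CommRing K] [IsDomain K] (q : V →+* K)
    (hq : Function.Surjective q) : ∃ qq : VV V →+* VV K, Function.Surjective qq ∧
      ∀ f : V[X], qq (algebraMap V[X] (VV V) f) = algebraMap K[X] (VV K) (f.map q) := by
  have hunit : ∀ y : S2 V, IsUnit (((algebraMap K[X] (VV K)).comp (mapRingHom q)) y) := by
    intro y
    exact IsLocalization.map_units (VV K) (⟨(y : V[X]).map q, s2_map q y y.2⟩ : S2 K)
  let qq : VV V →+* VV K := IsLocalization.lift (M := S2 V) hunit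
  have hqq : ∀ f : V[X], qq (algebraMap V[X] (VV V) f)
      = algebraMap K[X] (VV K) (f.map q) := fun f => IsLocalization.lift_eq hunit f
  refine ⟨qq, ?_, hqq⟩
  intro z
  obtain ⟨a, b, rfl⟩ := IsLocalization.exists_mk'_eq (S2 K) z
  obtain ⟨h, hh, he⟩ := s2_lift q hq b b.2
  obtain ⟨a', ha'⟩ := Polynomial.map_surjective q hq a
  refine ⟨IsLocalization.mk' (VV V) a' (⟨h, hh⟩ : S2 V), ?_⟩
  have h1 : qq (IsLocalization.mk' (VV V) a' (⟨h, hh⟩ : S2 V)) * qq (algebraMap V[X] (VV V) h)
      = qq (algebraMap V[X] (VV V) a') := by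
    rw [← map_mul]
    congr 1
    exact IsLocalization.mk'_spec (VV V) a' (⟨h, hh⟩ : S2 V)
  rw [hqq, hqq, ha', he] at h1
  exact IsLocalization.eq_mk'_iff_mul_eq.2 h1

theorem dec_det_one' (hVV : S_VV) (hLIFT : S_LIFT) (n : ℕ) (V : Type) [CommRing V] [IsDomain V]
    (hA : ∀ m, IdemFree (MvPolynomial (Fin m) V))
    (K : Type) [CommRing K] [IsDomain K] [IsPrincipalIdealRing K] (hK : E2T K)
    (q : V →+* K) (hq : Function.Surjective q) (s : ℕ)
    (γ γ' : Matrix (Fin s) (Fin s) (LaurentPolynomial (MvPolynomial (Fin n) K)))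
    (hγ : γ * γ' = 1) (hdet : γ.det = 1) :
    ∃ (αL αL' : Matrix (Fin s) (Fin s) (LaurentPolynomial (MvPolynomial (Fin n) V)))
      (β β' : Matrix (Fin s) (Fin s) (MvPolynomial (Fin n) K)[X]),
      αL * αL' = 1 ∧ β * β' = 1 ∧
      γ = αL.map (lmap (MvPolynomial.map q)) * β.map (Polynomial.toLaurent) := by
  obtain ⟨qq, hqq, hqqa⟩ := exists_qq' q hq
  obtain ⟨κ, hκl, hκC0, hκv⟩ := locRel_mv (RingHom.id K) (algebraMap K[X] (VV K)) (locRel_base K) n
  have hκ := hκl.inj
  have hκC : ∀ k : K, κ (Polynomial.C (MvPolynomial.C k)) =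
      MvPolynomial.C (algebraMap K[X] (VV K) (Polynomial.C k)) := by
    intro k
    have := hκC0 (Polynomial.C k)
    rwa [Polynomial.map_C] at this
  have hκX : κ X = MvPolynomial.C (algebraMap K[X] (VV K) X) := by
    have := hκC0 X
    rwa [Polynomial.map_X] at this
  obtain ⟨ι, hι, hιC, hιX⟩ := locRel_mv (RingHom.id V) (algebraMap V[X] (VV V)) (locRel_base V) n
  have hιXX : ι X = MvPolynomial.C (algebraMap V[X] (VV V) X) := by
    have := hιC X
    rwa [Polynomial.map_X] at this
  have hcomm : ∀ f : (MvPolynomial (Fin n) V)[X],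
      (MvPolynomial.map qq) (ι f) = κ (f.map (MvPolynomial.map q)) := by
    have h : (MvPolynomial.map qq).comp ι = κ.comp (mapRingHom (MvPolynomial.map q)) := by
      apply Polynomial.ringHom_ext'
      · apply MvPolynomial.ringHom_ext
        · intro v
          show (MvPolynomial.map qq) (ι (Polynomial.C (MvPolynomial.C v)))
            = κ (mapRingHom (MvPolynomial.map q) (Polynomial.C (MvPolynomial.C v)))
          have h1 := hιC (Polynomial.C v)
          rw [Polynomial.map_C] at h1
          rw [h1, MvPolynomial.map_C, hqqa, coe_mapRingHom, Polynomial.map_C, Polynomial.map_C,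
            MvPolynomial.map_C, hκC]
        · intro i
          show (MvPolynomial.map qq) (ι (Polynomial.C (MvPolynomial.X i)))
            = κ (mapRingHom (MvPolynomial.map q) (Polynomial.C (MvPolynomial.X i)))
          rw [hιX, MvPolynomial.map_X, coe_mapRingHom, Polynomial.map_C, MvPolynomial.map_X, hκv]
      · show (MvPolynomial.map qq) (ι X) = κ (mapRingHom (MvPolynomial.map q) X)
        rw [hιXX, MvPolynomial.map_C, hqqa, coe_mapRingHom, Polynomial.map_X, Polynomial.map_X, hκX]
    intro f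
    exact RingHom.congr_fun h f
  have hιu : IsUnit (ι X) := by
    have := hι.unit X (X_mem_S2 V)
    rwa [Polynomial.map_X] at this
  have hκu : IsUnit (κ X) := by
    have := hιu.map (MvPolynomial.map qq)
    rwa [hcomm, Polynomial.map_X] at this
  obtain ⟨κL, hκL, hκLi⟩ := exists_lext κ hκ hκu
  obtain ⟨α, hαdet, hα⟩ := hLIFT n (VV V) (VV K) (hVV K hK) qq hqq s (γ.map κL) (by
    have := RingHom.map_det κL γ
    rw [hdet, map_one] at this
    exact this.symm)
  have h1 : α * α.adjugate = 1 := by rw [Matrix.mul_adjugate, hαdet, one_smul]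
  have h2 : α.adjugate * α = 1 := by rw [Matrix.adjugate_mul, hαdet, one_smul]
  obtain ⟨f, hf, hfc⟩ := common_den hι (m := (Fin s × Fin s) ⊕ (Fin s × Fin s))
    (Sum.elim (fun p => α p.1 p.2) (fun p => α.adjugate p.1 p.2))
  obtain ⟨a, f0, hff, hf0, -, hf0e⟩ := S2.factor V f hf
  set jj : V →+* MvPolynomial (Fin n) V :=
    (MvPolynomial.C : V →+* MvPolynomial (Fin n) V).comp (RingHom.id V) with hjj
  have hco : (-(f0.divX.map jj)) * X + 1 * (f0.map jj) = 1 := by
    have h0 : f0.coeff 0 = 1 := by rw [coeff_zero_eq_eval_zero, hf0e]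
    have h3 : f0 = f0.divX * X + 1 := by
      conv_lhs => rw [← divX_mul_X_add f0, h0, map_one]
    have h4 : f0.map jj = f0.divX.map jj * X + 1 := by
      conv_lhs => rw [h3]
      rw [Polynomial.map_add, Polynomial.map_mul, Polynomial.map_X, Polynomial.map_one]
    rw [h4]; ring
  have hpow : (X * f0.map jj) ^ (a + 1) = (f.map jj) * (X * (f0.map jj) ^ a) := by
    rw [hff, Polynomial.map_mul, Polynomial.map_pow, Polynomial.map_X]
    ring
  have den : ∀ (z : MvPolynomial (Fin n) (VV V)) (c : (MvPolynomial (Fin n) V)[X]),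
      ι (f.map jj) * z = ι c →
      (ι (X * f0.map jj)) ^ (a + 1) * z = ι (X * (f0.map jj) ^ a * c) := by
    intro z c hz
    rw [← map_pow, hpow, map_mul, mul_comm (ι (f.map jj)), mul_assoc, hz, ← map_mul]
  have hR : IdemFree (MvPolynomial (Fin n) V)[X] :=
    (hA (n + 1)).of_equiv (MvPolynomial.finSuccEquiv V n).toRingEquiv
  have hnt : Nontrivial (VV V) := (VV.dom V).toNontrivial
  choose c hc using hfc
  refine core (MvPolynomial.map q) ι κ (MvPolynomial.map qq) hι.inj hκ hcomm hιu hR (f0.map jj)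
    (-(f0.divX.map jj)) hco γ γ' hγ κL hκL hκLi α α.adjugate h1 h2 hα
    ⟨a + 1, Matrix.of fun i j => X * (f0.map jj) ^ a * c (Sum.inl (i, j)), ?_⟩
    ⟨a + 1, Matrix.of fun i j => X * (f0.map jj) ^ a * c (Sum.inr (i, j)), ?_⟩
  · refine Matrix.ext fun i j => ?_
    rw [Matrix.smul_apply, smul_eq_mul, Matrix.map_apply, Matrix.of_apply]
    exact den _ _ (hc (Sum.inl (i, j)))
  · refine Matrix.ext fun i j => ?_
    rw [Matrix.smul_apply, smul_eq_mul, Matrix.map_apply, Matrix.of_apply]
    exact den _ _ (hc (Sum.inr (i, j)))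

theorem t_DEC (h1 : S_VV) (h2 : S_LIFT) : S_DEC := by
  intro n V _ _ hA K _ _ _ hK q hq s γ γ' hγ
  rcases s with _ | s
  · exact dec_det_one' h1 h2 n V hA K hK q hq 0 γ γ' hγ (Matrix.det_isEmpty)
  · obtain ⟨m, u, u', huu, hd⟩ := O.unit_form γ.det γ'.det (by
      rw [← Matrix.det_mul, hγ, Matrix.det_one])
    have hT : (LaurentPolynomial.T (-m) : LaurentPolynomial (MvPolynomial (Fin n) K))
        * LaurentPolynomial.T m = 1 := by
      rw [← LaurentPolynomial.T_add]; simp
    have hT' : (LaurentPolynomial.T m : LaurentPolynomial (MvPolynomial (Fin n) K))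
        * LaurentPolynomial.T (-m) = 1 := by
      rw [← LaurentPolynomial.T_add]; simp
    have hTA : (LaurentPolynomial.T (-m) : LaurentPolynomial (MvPolynomial (Fin n) V))
        * LaurentPolynomial.T m = 1 := by
      rw [← LaurentPolynomial.T_add]; simp
    have huu' : u' * u = 1 := by rw [mul_comm]; exact huu
    have hU : toLaurent u * toLaurent u' = 1 := by rw [← map_mul, huu, map_one]
    have hU' : toLaurent u' * toLaurent u = 1 := by rw [← map_mul, huu', map_one]
    obtain ⟨αL, αL', β, β', ha, hb, he⟩ := dec_det_one' h1 h2 n V hA K hK q hq (s + 1)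
      (O.dg s (LaurentPolynomial.T m) * γ * O.dg s (toLaurent u))
      (O.dg s (toLaurent u') * γ' * O.dg s (LaurentPolynomial.T (-m)))
      (by
        calc O.dg s (LaurentPolynomial.T m) * γ * O.dg s (toLaurent u) *
            (O.dg s (toLaurent u') * γ' * O.dg s (LaurentPolynomial.T (-m)))
            = O.dg s (LaurentPolynomial.T m) * (γ * ((O.dg s (toLaurent u) *
              O.dg s (toLaurent u')) * γ')) * O.dg s (LaurentPolynomial.T (-m)) := by
              simp only [Matrix.mul_assoc]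
          _ = 1 := by
              rw [O.dg_mul, hU, O.dg_one, Matrix.one_mul, hγ, Matrix.mul_one, O.dg_mul, hT',
                O.dg_one])
      (by
        rw [Matrix.det_mul, Matrix.det_mul, O.dg_det, O.dg_det, ← hd]
        ring)
    refine ⟨O.dg s (LaurentPolynomial.T (-m)) * αL, αL' * O.dg s (LaurentPolynomial.T m),
      β * O.dg s u', O.dg s u * β', ?_, ?_, ?_⟩
    · calc O.dg s (LaurentPolynomial.T (-m)) * αL * (αL' * O.dg s (LaurentPolynomial.T m))
          = O.dg s (LaurentPolynomial.T (-m)) * (αL * αL') * O.dg s (LaurentPolynomial.T m) := by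
            simp only [Matrix.mul_assoc]
        _ = 1 := by rw [ha, Matrix.mul_one, O.dg_mul, hTA, O.dg_one]
    · calc β * O.dg s u' * (O.dg s u * β') = β * (O.dg s u' * O.dg s u) * β' := by
            simp only [Matrix.mul_assoc]
        _ = 1 := by rw [O.dg_mul, huu', O.dg_one, Matrix.mul_one, hb]
    · rw [Matrix.map_mul, Matrix.map_mul]
      rw [show (O.dg s (LaurentPolynomial.T (-m)) : Matrix (Fin (s + 1)) (Fin (s + 1))
        (LaurentPolynomial (MvPolynomial (Fin n) V))).map (lmap (MvPolynomial.map q))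
          = O.dg s (LaurentPolynomial.T (-m)) by rw [O.dg_map, O.lmap_T]]
      rw [O.dg_map]
      calc γ = (O.dg s (LaurentPolynomial.T (-m)) * O.dg s (LaurentPolynomial.T m)) * γ *
            (O.dg s (toLaurent u) * O.dg s (toLaurent u')) := by
            rw [O.dg_mul, O.dg_mul, hT, hU, O.dg_one, Matrix.one_mul, Matrix.mul_one]
        _ = O.dg s (LaurentPolynomial.T (-m)) * (O.dg s (LaurentPolynomial.T m) * γ *
            O.dg s (toLaurent u)) * O.dg s (toLaurent u') := by simp only [Matrix.mul_assoc]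
        _ = _ := by rw [he]; simp only [Matrix.mul_assoc]

end Pool.Agent.W571.BQN
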